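import Pool.Agent.W763.PB.Stm

/-! Project PB: part G4, the blow-up. -/

set_option autoImplicit false

open MeasureTheory Filter Topology
open scoped InnerProductSpace BoundedContinuousFunction

namespace Pool.Agent.W481.PB

open Pool.Agent.W763.PB

noncomputable section

theorem g4 : S_R1 → S_R2 → S_Z1 → S_Z7 → S_J1 → S_J2 → S_J3 → S_J4 → S_G4 := by
  intro hR1 _ _ hZ7 hJ1 hJ2 hJ3 _ k b m _ _ hk hb H _ _ _ U D hlev hm x
  set V : Sp b m H := (Ush b m).symm (Jop k b m U x) with hV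
  obtain ⟨h3a, h3b, -, -⟩ := hJ3 k b m hk hb H U D hlev
  have hnV : ‖V‖ = ‖x‖ := by
    rw [hV, LinearIsometryEquiv.norm_map, (hJ1 k b m hk hb H U).1 x]
  have hadj : ContinuousLinearMap.adjoint (Jop k b m U) V
      = ((kap k 1 : ℝ) : ℂ) • ((U ^ 1).symm x) := by
    have h := (hJ2 k b m hk hb H U 1 (by omega)).2.2 x
    have e1 : (((1 : ℕ) : ℝ) / (m : ℝ)) = 1 := by rw [hm]; norm_num
    rw [e1] at h
    rw [hV, ← h]
    congr 1
  have hadjn : ‖ContinuousLinearMap.adjoint (Jop k b m U) V‖ ^ 2 = (kap k 1) ^ 2 * ‖x‖ ^ 2 := by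
    rw [hadj, norm_smul, LinearIsometryEquiv.norm_map, Complex.norm_real, mul_pow]
    congr 1
    rw [Real.norm_eq_abs, sq_abs]
  have hpt : ∀ t : ZMod (b * m), k * ‖(Dg b m (ee b m) V) t‖ ^ 2 + ‖(Dg b m (sw k b m) V) t‖ ^ 2
      = k * ‖V t‖ ^ 2 := by
    intro t
    rw [Dg_apply, Dg_apply, norm_smul, norm_smul, Complex.norm_real, Complex.norm_real, mul_pow,
      mul_pow, Real.norm_eq_abs, Real.norm_eq_abs, sq_abs, sq_abs]
    by_cases hO : Om k b m (t - 1) = 0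
    · have hVt : V t = 0 := by
        rw [hV, Ush_symm_apply, Jop_apply, hO]; simp
      rw [hVt]; simp
    · have hw := hZ7 k b m hk hb t hO
      by_cases ht : t.val < 2 * m
      · have e1 : ee b m t = 1 := by simp [ee, ht]
        have e2 : sw k b m t = 0 := by simp [sw, ht]
        rw [e1, e2]; ring
      · have e1 : ee b m t = 0 := by simp [ee, ht]
        have e2 : sw k b m t ^ 2 = k := by
          have : sw k b m t = Real.sqrt (ww k b m t) := by simp [sw, ht]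
          rw [this, hw, Real.sq_sqrt (by linarith)]
        rw [e1, e2]; ring
  have hsum : k * ‖Dg b m (ee b m) V‖ ^ 2 + ‖Dg b m (sw k b m) V‖ ^ 2 = k * ‖V‖ ^ 2 := by
    rw [PiLp.norm_sq_eq_of_L2, PiLp.norm_sq_eq_of_L2, PiLp.norm_sq_eq_of_L2, Finset.mul_sum,
      Finset.mul_sum, ← Finset.sum_add_distrib]
    exact Finset.sum_congr rfl fun t _ => hpt t
  have hk1 : (kap k 1) ^ 2 ≤ 1 / k := (hR1 k hk).2
  have hk2 : k * (kap k 1) ^ 2 ≤ 1 := by
    have := mul_le_mul_of_nonneg_left hk1 (show (0 : ℝ) ≤ k by linarith)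
    rwa [mul_one_div_cancel (by linarith : k ≠ 0)] at this
  have hx2 : 0 ≤ ‖x‖ ^ 2 := sq_nonneg _
  have hD2 : 0 ≤ ‖D (ContinuousLinearMap.adjoint (Jop k b m U) V)‖ ^ 2 := sq_nonneg _
  rw [h3a V, h3b V, hadjn]
  rw [hnV] at hsum
  nlinarith [mul_le_mul_of_nonneg_right hk2 hx2]

end

end Pool.Agent.W481.PB

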